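import Mathlib
import Pool.Agent.H47.CP.Main

/-! # MP_7acde3_gt: there is no perfect equilibrium triangulation of `ℂP⁴`

All definitions used by the statement are in this file. The conditions imposed on a complex below
are weaker than those of the question (see the comments), so that the theorem is stronger than the
negative answer to Q1: nothing is assumed about the family `S` which generates the complex (it need
not be a Hopf triangulation, nor a triangulation of the sphere), and the reflection `ρ` is not used.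
-/

set_option autoImplicit false

namespace Pool.Agent.Results.MP_7acde3_gt.NoPerfectCP4

/-- Complex projective 4-space, with homogeneous coordinates `z_i` indexed by `i : ZMod 5`. -/
def CP4 : Type := Projectivization ℂ (ZMod 5 → ℂ)

/-- The usual topology of `ℂP⁴`: the quotient topology for `ℂ⁵ ∖ {0} → ℂP⁴`, `z ↦ [z]`. -/
noncomputable instance : TopologicalSpace CP4 :=
  TopologicalSpace.coinduced
    (fun z : {z : ZMod 5 → ℂ // z ≠ 0} => Projectivization.mk ℂ z.1 z.2) inferInstance

/-- `B_I = {[z] : |z_j| ≤ |z_i| for all i ∈ I and all j}`. -/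
def B (I : Finset (ZMod 5)) : Set CP4 :=
  {p | ∃ (z : ZMod 5 → ℂ) (hz : z ≠ 0), Projectivization.mk ℂ z hz = p ∧
    ∀ i ∈ I, ∀ j, ‖z j‖ ≤ ‖z i‖}

/-- The vertices: the elements of `ZMod 31` (as `Sum.inl x`) and the five further vertices
`p_i = Sum.inr i`, `i : ZMod 5`. -/
abbrev V := ZMod 31 ⊕ ZMod 5

/-- The geometric realization `|C|` of an abstract simplicial complex `C` on the vertex set `V`:
the convex combinations of vertices whose support is a simplex of `C`. -/
def real (C : Set (Finset V)) : Set (V → ℝ) :=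
  {f | (∀ v, 0 ≤ f v) ∧ ∑ v, f v = 1 ∧ (Finset.univ.filter fun v => f v ≠ 0) ∈ C}

/-- The permcycle `a₁ … a_{m+1}` on `ZMod n`: the nonempty subsets of the facets
`{x, x + b₁, …, x + b₁ + ⋯ + b_m}`, where `(b₁, …, b_m)` is a permutation of `(a₁, …, a_m)`. -/
def permcycle (n : ℕ) (a : List ℕ) : Set (Finset (ZMod n)) :=
  {F | F.Nonempty ∧ ∃ x : ZMod n, ∃ b : List ℕ, b.Perm a.dropLast ∧
    F ⊆ (b.scanl (fun (y : ZMod n) (c : ℕ) => y + (c : ZMod n)) x).toFinset}

/-- `τ(x) = x + 1`, `τ(p_i) = p_i`. -/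
def tau : V → V := Sum.map (fun x => x + 1) id

/-- `σ(x) = 2x`, `σ(p_i) = p_{i+1}`. -/
def sigma : V → V := Sum.map (fun x => 2 * x) (fun i => i + 1)

/-- The complex `⋃_{j=0}^{4} σʲ(p₀ * S)` generated by a family `S` of simplices on `ZMod 31`: the
nonempty subsets of the sets `{p_j} ∪ {2ʲ x : x ∈ F}`, `0 ≤ j < 5`, `F ∈ S`. -/
def generated (S : Set (Finset (ZMod 31))) : Set (Finset V) :=
  {G | G.Nonempty ∧ ∃ j : ℕ, j < 5 ∧ ∃ F ∈ S,
    G ⊆ insert (Sum.inr (j : ZMod 5)) (F.image fun x => Sum.inl (2 ^ j * x))}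

/-- `C`, with strata `C_I = D I` and the homeomorphism `g : ℂP⁴ ≃ |C|`, is an equilibrium
triangulation of `ℂP⁴`. Of the condition that `C` is a combinatorial triangulation of an 8-manifold
we only use that links of 8-simplices are empty and that links of 7-simplices consist of two
points. -/
structure IsEquilibrium (C : Set (Finset V)) (D : Finset (ZMod 5) → Set (Finset V))
    (g : CP4 ≃ₜ real C) : Prop where
  /-- simplices are nonempty -/
  nonempty : ∀ F ∈ C, F.Nonempty
  /-- faces of simplices are simplices -/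
  down : ∀ F ∈ C, ∀ G ⊆ F, G.Nonempty → G ∈ C
  /-- no simplex has dimension more than 8 -/
  dim : ∀ F ∈ C, F.card ≤ 9
  /-- every 7-simplex lies in exactly two 8-simplices -/
  ridge : ∀ E ∈ C, E.card = 8 → {F | F ∈ C ∧ F.card = 9 ∧ E ⊆ F}.ncard = 2
  /-- `C_I` is contained in `C` -/
  sub : ∀ I, I.Nonempty → D I ⊆ C
  /-- `C_I` is a complex -/
  subdown : ∀ I, I.Nonempty → ∀ F ∈ D I, ∀ G ⊆ F, G.Nonempty → G ∈ D I
  /-- `g(B_I) = |C_I|` -/
  image : ∀ I, I.Nonempty → (fun p => (g p : V → ℝ)) '' B I = real (D I)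

/-- The central torus `C_{01234}` is the permcycle `1 2 4 8 16` on `ZMod 31`. -/
def HasCentralTorus (D : Finset (ZMod 5) → Set (Finset V)) : Prop :=
  ∀ G, G ∈ D Finset.univ ↔ ∃ F ∈ permcycle 31 [1, 2, 4, 8, 16], F.image Sum.inl = G

/-- The permutation `φ` of the vertices is an automorphism of the complex `C`. -/
def IsAut (φ : V → V) (C : Set (Finset V)) : Prop := ∀ F : Finset V, F ∈ C ↔ F.image φ ∈ C

theorem mem_B {I : Finset (ZMod 5)} {p : CP4} : p ∈ B I ↔ p ∈ Pool.H47.CP.B I := by
  constructor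
  · rintro ⟨z, hz, hp, h⟩ i hi j
    have he : Projectivization.mk ℂ (Projectivization.rep (show Projectivization ℂ (ZMod 5 → ℂ)
        from p)) (Projectivization.rep_nonzero _) = Projectivization.mk ℂ z hz := by
      rw [Projectivization.mk_rep]; exact hp.symm
    obtain ⟨a, ha⟩ := (Projectivization.mk_eq_mk_iff' ℂ _ _ _ _).1 he
    show ‖(Projectivization.rep (show Projectivization ℂ (ZMod 5 → ℂ) from p)) j‖ ≤
      ‖(Projectivization.rep (show Projectivization ℂ (ZMod 5 → ℂ) from p)) i‖
    rw [← ha, Pi.smul_apply, Pi.smul_apply, norm_smul, norm_smul]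
    exact mul_le_mul_of_nonneg_left (h i hi j) (norm_nonneg a)
  · intro h
    exact ⟨_, Projectivization.rep_nonzero (show Projectivization ℂ (ZMod 5 → ℂ) from p),
      Projectivization.mk_rep _, h⟩

theorem image_mem {C : Set (Finset V)} {D : Finset (ZMod 5) → Set (Finset V)} {g : CP4 ≃ₜ real C}
    (h : Pool.H47.CP.Equi C D g) {φ : V → V} {s : ZMod 5 → ZMod 5}
    (hφ : ∀ i, ∀ G ∈ D {i}, G.image φ ∈ D {s i}) (I : Finset (ZMod 5)) (hI : I.Nonempty)
    (G : Finset V) (hG : G ∈ D I) : G.image φ ∈ D (I.image s) := by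
  have hC := h.sub I hI hG
  have hL := (h.mem_D hI hC).1 hG
  obtain ⟨i, hi⟩ := hI
  have hC' : G.image φ ∈ C :=
    h.sub _ (Finset.singleton_nonempty _) (hφ i G (Pool.H47.CP.mem_Lam.1 (hL hi)))
  rw [h.mem_D (⟨s i, Finset.mem_image_of_mem s hi⟩) hC']
  intro k hk
  obtain ⟨l, hl, rfl⟩ := Finset.mem_image.1 hk
  exact Pool.H47.CP.mem_Lam.2 (hφ l G (Pool.H47.CP.mem_Lam.1 (hL hl)))

theorem IsEquilibrium.base {C : Set (Finset V)} {D : Finset (ZMod 5) → Set (Finset V)}
    {g : CP4 ≃ₜ real C} (h : IsEquilibrium C D g) (hT : HasCentralTorus D) :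
    Pool.H47.CP.Base C D g where
  ne := h.nonempty
  cdown := h.down
  sub := h.sub
  down := h.subdown
  img I hI := by
    have e : Pool.H47.CP.B I = B I := by
      ext p
      exact mem_B.symm
    rw [e]
    exact h.image I hI
  dim := h.dim
  ridge := h.ridge
  torus := hT

/-- **Negative answer to Q1.** Let `C` be an equilibrium triangulation of `ℂP⁴` with vertices in
`ZMod 31 ∪ {p₀, …, p₄}` and with central torus `C_{01234}` the permcycle `1 2 4 8 16`. Then it is
not perfect, in either of the following readings: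
(i) `τ` and `σ` are automorphisms of the equilibrium triangulation, `τ(C_i) ⊆ C_i` and
`σ(C_i) ⊆ C_{i+1}` (here `C` may be generated or not, and nothing is assumed about the `p_i`);
(ii) `C` is generated by a family `S` of simplices on `ZMod 31`, for example by a Hopf triangulation
of `S⁷`, `p_i` is the only one of the further vertices in `C_i`, and `τ` and `σ` are automorphisms
of the complex `C`. -/
theorem result (C : Set (Finset V)) (D : Finset (ZMod 5) → Set (Finset V)) (g : CP4 ≃ₜ real C)
    (hC : IsEquilibrium C D g) (hT : HasCentralTorus D)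
    (hA : (∀ i, ∀ G ∈ D {i}, G.image tau ∈ D {i} ∧ G.image sigma ∈ D {i + 1}) ∨
      ((∃ S : Set (Finset (ZMod 31)), C = generated S) ∧
        (∀ i j, ({Sum.inr j} : Finset V) ∈ D {i} ↔ j = i) ∧ IsAut tau C ∧ IsAut sigma C)) :
    False := by
  have hb := hC.base hT
  rcases hA with hA | ⟨⟨S, hS⟩, hv, h1, h2⟩
  · refine Pool.H47.CP.main (C := C) (D := D) (g := g) ⟨hb, ?_, ?_⟩
    · intro I hI G hG
      have := image_mem hb.toEqui (φ := tau) (s := id) (fun i G hG => (hA i G hG).1) I hI G hG
      rwa [Finset.image_id] at this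
    · intro I hI G hG
      exact image_mem hb.toEqui (φ := sigma) (s := fun i => i + 1)
        (fun i G hG => (hA i G hG).2) I hI G hG
  · have hp : Pool.H47.CP.Perf1 C D g := ⟨hb, ?_, hv, h1, h2⟩
    · exact Pool.H47.CP.main (hp.perf Pool.H50.CP.t1)
    · subst hS
      rintro H ⟨-, j, hj, F, hF, hHF⟩
      exact ⟨j, Finset.insert_nonempty _ _, j, hj, F, hF,
        Finset.insert_subset (Finset.mem_insert_self _ _) hHF⟩

end Pool.Agent.Results.MP_7acde3_gt.NoPerfectCP4
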